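import Mathlib

set_option autoImplicit false

/-!
# Chow polynomials of simplicial posets need not be real-rooted (MP_308f9e_co)

The definitions below follow the problem file: `P` is a finite simplicial poset of rank `n` and
`WithTop P` is the poset `P` with a new top element adjoined.
-/

namespace Pool.Agent.Results.MP_308f9e_co.AugNotRealRooted

open Polynomial

/-- `P` (a finite poset with least element) is a graded simplicial poset of rank `n`: every
maximal interval `[⊥, m]` is isomorphic to the Boolean lattice of rank `n`. -/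
def IsSimplicial (P : Type) [PartialOrder P] [OrderBot P] (n : ℕ) : Prop :=
  ∀ m : P, IsMax m → Nonempty (Set.Iic m ≃o Finset (Fin n))

/-- The flag `f`-vector of a bounded graded poset `Q`: the number of chains `y_1 < ... < y_k`
whose set of ranks is `T`, i.e. of strictly increasing families `(y_t)`, `t ∈ T`, with `y_t` of
rank (height) `t`. -/
noncomputable def flagF (Q : Type) [PartialOrder Q] (T : Finset ℕ) : ℕ :=
  Nat.card {y : T → Q // StrictMono y ∧ ∀ t : T, Order.height (y t) = ((t : ℕ) : ℕ∞)}

/-- The flag `h`-vector. -/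
noncomputable def flagH (Q : Type) [PartialOrder Q] (S : Finset ℕ) : ℤ :=
  ∑ T ∈ S.powerset, (-1) ^ (S \ T).card * (flagF Q T : ℤ)

/-- `S` contains no two consecutive integers. -/
def Isolated (S : Finset ℕ) : Prop := ∀ i ∈ S, i + 1 ∉ S

instance (S : Finset ℕ) : Decidable (Isolated S) := by unfold Isolated; infer_instance

/-- The augmented Chow polynomial of `Q = WithTop P`, `P` of rank `n`. -/
noncomputable def chowAug (Q : Type) [PartialOrder Q] (n : ℕ) : ℝ[X] :=
  ∑ S ∈ (Finset.Icc 1 n).powerset.filter Isolated,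
    C (flagH Q S : ℝ) * X ^ S.card * (1 + X) ^ (n + 1 - 2 * S.card)

/-- Faces of two disjoint triangles. -/
abbrev PP : Type := {s : Finset (Fin 6) // s ⊆ {0, 1, 2} ∨ s ⊆ {3, 4, 5}}

instance : OrderBot PP where
  bot := ⟨∅, Or.inl (Finset.empty_subset _)⟩
  bot_le _ := Finset.empty_subset _

/-- the rank of a face -/
def rk : WithTop PP → ℕ
  | none => 4
  | some s => s.1.card

theorem height_PP (s : PP) : Order.height s = (s.1.card : ℕ∞) := by
  apply le_antisymm
  · have h := Order.height_le_height_apply_of_strictMono (fun s : PP => s.1.card)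
      (fun a b hab => Finset.card_lt_card hab) s
    rwa [Order.height_nat] at h
  · have key : ∀ k : ℕ, ∀ s : PP, s.1.card = k → (k : ℕ∞) ≤ Order.height s := by
      intro k
      induction k with
      | zero => intro s _; simp
      | succ k ih =>
        intro s hs
        obtain ⟨a, ha⟩ := Finset.card_pos.1 (by omega : 0 < s.1.card)
        let t : PP := ⟨s.1.erase a, by
          rcases s.2 with h | h
          · exact Or.inl ((Finset.erase_subset _ _).trans h)
          · exact Or.inr ((Finset.erase_subset _ _).trans h)⟩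
        have ht : t.1.card = k := by
          simp [t, Finset.card_erase_of_mem ha, hs]
        have hlt : t < s := Finset.erase_ssubset ha
        have h1 := ih t ht
        have h2 := Order.height_add_one_le hlt
        push_cast
        exact (add_le_add_left h1 1).trans h2
    exact key _ s rfl

theorem rk_strictMono : StrictMono rk := by
  decide +kernel

theorem height_eq (x : WithTop PP) : Order.height x = (rk x : ℕ∞) := by
  induction x using WithTop.recTopCoe with
  | coe s =>
    rw [Order.height_coe_withTop, height_PP]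
    rfl
  | top =>
    apply le_antisymm
    · have h := Order.height_le_height_apply_of_strictMono rk rk_strictMono (⊤ : WithTop PP)
      rwa [Order.height_nat] at h
    · have h1 : ((⟨{0, 1, 2}, Or.inl subset_rfl⟩ : PP) : WithTop PP) < ⊤ := WithTop.coe_lt_top _
      have h2 := Order.height_add_one_le h1
      rw [Order.height_coe_withTop, height_PP] at h2
      exact h2

theorem flagF_empty : flagF (WithTop PP) ∅ = 1 := by
  unfold flagF
  rw [Nat.card_eq_one_iff_unique]
  constructor
  · constructor
    rintro ⟨a, _⟩ ⟨b, _⟩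
    apply Subtype.ext
    funext t
    exact absurd t.2 (Finset.notMem_empty _)
  · exact ⟨⟨fun t => absurd t.2 (Finset.notMem_empty _),
      fun t => absurd t.2 (Finset.notMem_empty _), fun t => absurd t.2 (Finset.notMem_empty _)⟩⟩

theorem flagF_single (a : ℕ) : flagF (WithTop PP) {a} =
    (Finset.univ.filter (fun x : WithTop PP => rk x = a)).card := by
  unfold flagF
  rw [← Fintype.card_subtype, ← Nat.card_eq_fintype_card]
  refine Nat.card_congr ⟨fun y => ⟨y.1 ⟨a, Finset.mem_singleton_self a⟩, ?_⟩,
    fun x => ⟨fun _ => x.1, ?_, ?_⟩, ?_, ?_⟩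
  · have h := y.2.2 ⟨a, Finset.mem_singleton_self a⟩
    rw [height_eq] at h
    exact_mod_cast h
  · intro s t hst
    have h1 := Finset.mem_singleton.1 s.2
    have h2 := Finset.mem_singleton.1 t.2
    have h3 : (s : ℕ) < t := hst
    omega
  · intro t
    rw [height_eq, x.2, Finset.mem_singleton.1 t.2]
  · intro y
    apply Subtype.ext
    funext t
    have h2 := Finset.mem_singleton.1 t.2
    have h3 : t = ⟨a, Finset.mem_singleton_self a⟩ := Subtype.ext h2
    rw [h3]
  · intro x
    rfl

theorem flagF_pair (a b : ℕ) (hab : a < b) : flagF (WithTop PP) {a, b} =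
    (Finset.univ.filter (fun x : WithTop PP × WithTop PP =>
      rk x.1 = a ∧ rk x.2 = b ∧ x.1 < x.2)).card := by
  unfold flagF
  rw [← Fintype.card_subtype, ← Nat.card_eq_fintype_card]
  have ha : a ∈ ({a, b} : Finset ℕ) := by simp
  have hb : b ∈ ({a, b} : Finset ℕ) := by simp
  refine Nat.card_congr ⟨fun y => ⟨(y.1 ⟨a, ha⟩, y.1 ⟨b, hb⟩), ?_, ?_, ?_⟩,
    fun x => ⟨fun t => if (t : ℕ) = a then x.1.1 else x.1.2, ?_, ?_⟩, ?_, ?_⟩
  · have h := y.2.2 ⟨a, ha⟩
    rw [height_eq] at h
    exact_mod_cast h
  · have h := y.2.2 ⟨b, hb⟩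
    rw [height_eq] at h
    exact_mod_cast h
  · exact y.2.1 hab
  · intro s t hst
    have h1 := s.2
    have h2 := t.2
    simp only [Finset.mem_insert, Finset.mem_singleton] at h1 h2
    have h3 : (s : ℕ) < t := hst
    have h4 : (s : ℕ) = a := by omega
    have h5 : (t : ℕ) ≠ a := by omega
    simp only [h4, h5, if_true, if_false]
    exact x.2.2.2
  · intro t
    have h2 := t.2
    simp only [Finset.mem_insert, Finset.mem_singleton] at h2
    simp only [height_eq]
    split_ifs with h
    · rw [x.2.1, h]
    · rw [x.2.2.1]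
      congr 1
      omega
  · intro y
    apply Subtype.ext
    funext t
    have h2 := t.2
    simp only [Finset.mem_insert, Finset.mem_singleton] at h2
    simp only
    split_ifs with h
    · have h3 : t = ⟨a, ha⟩ := Subtype.ext h
      rw [h3]
    · have h3 : t = ⟨b, hb⟩ := Subtype.ext (by simp only; omega)
      rw [h3]
  · intro x
    apply Subtype.ext
    simp only [if_true]
    rw [if_neg (by omega)]

theorem c1 : flagF (WithTop PP) {1} = 6 := by
  rw [flagF_single]
  decide +kernel

theorem c2 : flagF (WithTop PP) {2} = 6 := by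
  rw [flagF_single]
  decide +kernel

theorem c3 : flagF (WithTop PP) {3} = 2 := by
  rw [flagF_single]
  decide +kernel

theorem c13 : flagF (WithTop PP) {1, 3} = 6 := by
  rw [flagF_pair 1 3 (by norm_num)]
  decide +kernel

theorem simplicial_PP : IsSimplicial PP 3 := by
  intro m hm
  have hcase : m = ⟨{0, 1, 2}, Or.inl subset_rfl⟩ ∨ m = ⟨{3, 4, 5}, Or.inr subset_rfl⟩ := by
    rcases m.2 with h | h
    · left
      exact hm.eq_of_le (b := ⟨{0, 1, 2}, Or.inl subset_rfl⟩) h
    · right
      exact hm.eq_of_le (b := ⟨{3, 4, 5}, Or.inr subset_rfl⟩) h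
  have key : ∀ (e : Fin 3 ↪ Fin 6) (h : Finset.univ.map e = m.1),
      Nonempty (Set.Iic m ≃o Finset (Fin 3)) := by
    intro e h
    refine ⟨⟨⟨fun t => Finset.univ.filter (fun i => e i ∈ t.1.1),
      fun u => ⟨⟨u.map e, ?_⟩, ?_⟩, ?_, ?_⟩, ?_⟩⟩
    · have h1 : u.map e ⊆ m.1 := by
        rw [← h]
        exact Finset.map_subset_map.2 (Finset.subset_univ _)
      rcases m.2 with h2 | h2
      · exact Or.inl (h1.trans h2)
      · exact Or.inr (h1.trans h2)
    · have h1 : u.map e ⊆ m.1 := by
        rw [← h]
        exact Finset.map_subset_map.2 (Finset.subset_univ _)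
      exact h1
    · intro t
      apply Subtype.ext
      apply Subtype.ext
      ext x
      simp only [Finset.mem_map, Finset.mem_filter, Finset.mem_univ, true_and]
      constructor
      · rintro ⟨i, hi, rfl⟩
        exact hi
      · intro hx
        have h1 : x ∈ m.1 := t.2 hx
        rw [← h, Finset.mem_map] at h1
        obtain ⟨i, _, rfl⟩ := h1
        exact ⟨i, hx, rfl⟩
    · intro u
      ext i
      simp
    · intro s t
      simp only [Equiv.coe_fn_mk]
      constructor
      · intro hst
        change s.1.1 ⊆ t.1.1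
        intro x hx
        have h1 : x ∈ m.1 := s.2 hx
        rw [← h, Finset.mem_map] at h1
        obtain ⟨i, _, rfl⟩ := h1
        have h2 : i ∈ Finset.univ.filter (fun i => e i ∈ s.1.1) := by simpa using hx
        simpa using hst h2
      · intro hst i hi
        simp only [Finset.mem_filter, Finset.mem_univ, true_and] at hi ⊢
        exact hst hi
  rcases hcase with h | h
  · exact key ⟨fun i => ⟨i.1, by omega⟩, fun i j hij => by
      apply Fin.ext; simpa using hij⟩ (by rw [h]; decide +kernel)
  · exact key ⟨fun i => ⟨i.1 + 3, by omega⟩, fun i j hij => by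
      apply Fin.ext; simpa using hij⟩ (by rw [h]; decide +kernel)

theorem h0 : flagH (WithTop PP) ∅ = 1 := by
  simp [flagH, flagF_empty]

theorem pw1 (a : ℕ) : ({a} : Finset ℕ).powerset = {∅, {a}} := by
  ext s
  simp [Finset.subset_singleton_iff]

theorem hs (a : ℕ) : flagH (WithTop PP) {a} = flagF (WithTop PP) {a} - 1 := by
  rw [flagH, pw1, Finset.sum_insert (by simp), Finset.sum_singleton, flagF_empty]
  simp
  ring

theorem pw13 : ({1, 3} : Finset ℕ).powerset = {∅, {1}, {3}, {1, 3}} := by
  decide +kernel

theorem h13 : flagH (WithTop PP) {1, 3} = -1 := by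
  rw [flagH, pw13, Finset.sum_insert (by decide), Finset.sum_insert (by decide),
    Finset.sum_insert (by decide), Finset.sum_singleton, flagF_empty, c1, c3, c13]
  have e1 : (({1, 3} : Finset ℕ) \ ∅).card = 2 := by decide
  have e2 : (({1, 3} : Finset ℕ) \ {1}).card = 1 := by decide
  have e3 : (({1, 3} : Finset ℕ) \ {3}).card = 1 := by decide
  have e4 : (({1, 3} : Finset ℕ) \ {1, 3}).card = 0 := by decide
  rw [e1, e2, e3, e4]
  norm_num

theorem filt : (Finset.Icc 1 3).powerset.filter Isolated = {∅, {1}, {2}, {3}, {1, 3}} := by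
  decide +kernel

theorem chowAug_eq : chowAug (WithTop PP) 3 =
    1 + C 15 * X + C 27 * X ^ 2 + C 15 * X ^ 3 + X ^ 4 := by
  rw [chowAug, filt, Finset.sum_insert (by decide), Finset.sum_insert (by decide),
    Finset.sum_insert (by decide), Finset.sum_insert (by decide), Finset.sum_singleton,
    h0, hs, hs, hs, c1, c2, c3, h13]
  have e5 : ({1, 3} : Finset ℕ).card = 2 := by decide
  simp only [Finset.card_empty, Finset.card_singleton, e5]
  norm_num
  simp only [map_ofNat]
  ring

/-- There is a finite graded simplicial poset (of rank 3) whose augmented Chow polynomial has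
a non-real root. -/
theorem result : ∃ (P : Type) (_ : PartialOrder P) (_ : OrderBot P) (_ : Finite P),
    IsSimplicial P 3 ∧
      ∃ z : ℂ, aeval z (chowAug (WithTop P) 3) = 0 ∧ z.im ≠ 0 := by
  refine ⟨PP, inferInstance, inferInstance, inferInstance, simplicial_PP, ?_⟩
  obtain ⟨a, ha, ha2, ha3⟩ : ∃ a : ℝ, a ^ 2 - 15 * a + 25 = 0 ∧ 0 < a ∧ a < 2 := by
    refine ⟨(15 - Real.sqrt 125) / 2, ?_, ?_, ?_⟩
    · nlinarith [Real.sq_sqrt (show (0 : ℝ) ≤ 125 by norm_num)]
    · have : Real.sqrt 125 < 15 := by
        rw [Real.sqrt_lt' (by norm_num)]; norm_num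
      linarith
    · have : 11 < Real.sqrt 125 := by
        rw [Real.lt_sqrt (by norm_num)]; norm_num
      linarith
  obtain ⟨b, hb, hb2⟩ : ∃ b : ℝ, b ^ 2 = 4 - a ^ 2 ∧ 0 < b := by
    refine ⟨Real.sqrt (4 - a ^ 2), Real.sq_sqrt (by nlinarith), Real.sqrt_pos.2 (by nlinarith)⟩
  refine ⟨⟨-a / 2, b / 2⟩, ?_, ?_⟩
  · set z : ℂ := ⟨-a / 2, b / 2⟩ with hz
    have hq : z ^ 2 + a * z + 1 = 0 := by
      apply Complex.ext
      · simp [hz, pow_two]
        nlinarith
      · simp [hz, pow_two]
        ring
    have haC : (a : ℂ) ^ 2 - 15 * a + 25 = 0 := by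
      exact_mod_cast congrArg (fun x : ℝ => (x : ℂ)) ha
    rw [chowAug_eq]
    simp only [map_add, map_mul, map_pow, aeval_X, aeval_C, map_one]
    have h15 : (algebraMap ℝ ℂ) 15 = 15 := by simp
    have h27 : (algebraMap ℝ ℂ) 27 = 27 := by simp
    rw [h15, h27]
    linear_combination (z ^ 2 + (15 - a) * z + 1) * hq + z ^ 2 * haC
  · simp only
    positivity

end Pool.Agent.Results.MP_308f9e_co.AugNotRealRooted
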